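import Mathlib
import Pool.Agent.H584R3.BuDefs
import Pool.Agent.H584R3.Bu9

/-!
# The type 1 noncommutative Borsuk–Ulam conjecture is false

`MP_90d4f1_an`, Q1 (negated form).  The definitions are in `Pool/Agent/H584R3/BuDefs.lean` and
follow the problem file; unital C*-algebras are taken as norm closed unital `*`-algebras of
operators on Hilbert spaces `ℓ²(X)`, and the minimal tensor product is the spatial one.
-/

namespace Pool.Agent.Results.MP_90d4f1_an.TypeOneFails

open H584BuDefs

/-- There are a non-trivial compact quantum group `(H, Δ)`, a free coaction `δ` of it on a unital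
C*-algebra `A`, and an `H`-equivariant unital `*`-homomorphism `Φ : A → A *_δ H`. -/
theorem result :
    ∃ (X Y : Type) (A : Set (Op X)) (H : Set (Op Y)) (Δ : Op Y → Op (Y × Y))
      (δ : Op X → Op (X × Y)) (Φ : Op X → unitInterval → Op (X × Y)),
      IsCQG H Δ ∧ IsNontriv H ∧ IsFreeCoaction A H Δ δ ∧ IsEquivJoinHom A H Δ δ Φ := by
  obtain ⟨Φ, hΦ⟩ := H584Bu.main_exists H584Bu.NG_top
  exact ⟨_, _, _, _, _, _, Φ, H584Bu.HH_cqg, H584Bu.nontriv,
    H584Bu.freeCoaction H584Bu.dg H584Bu.WW_gen, hΦ⟩

end Pool.Agent.Results.MP_90d4f1_an.TypeOneFails
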